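import Pool.Agent.Y31.LM.Pq

/-! Project LM: primitives of functions with mean zero near the unit circle. -/

set_option autoImplicit false

open MeasureTheory Set Filter Topology Metric Complex
open scoped ComplexConjugate Real

namespace Pool.Agent.Y98.LM

open Pool.Agent.Y31.LM

noncomputable section

/-- the primitive with respect to the angle -/
def gam0 (c : ℂ → ℂ) (X : ℂ) : ℂ :=
  (1 / (2 * π : ℂ)) * ∫ t in (0 : ℝ)..(2 * π), (t : ℂ) * c (X * exp (t * I))

theorem gam0_im (c : ℂ → ℂ) (hc : ContinuousOn c (sphere (0 : ℂ) 1))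
    (him : ∀ X : ℂ, ‖X‖ = 1 → (c X).im = 0) {X : ℂ} (h : ‖X‖ = 1) : (gam0 c X).im = 0 := by
  have hcont : Continuous fun t : ℝ => (t : ℂ) * c (X * exp (t * I)) := by
    refine Complex.continuous_ofReal.mul (hc.comp_continuous (by fun_prop) fun t => ?_)
    rw [mem_sphere_zero_iff_norm, norm_rot, h]
  have h1 := Complex.imCLM.intervalIntegral_comp_comm
    (hcont.intervalIntegrable 0 (2 * π) (μ := volume))
  have h2 : (∫ t in (0 : ℝ)..(2 * π), Complex.imCLM ((t : ℂ) * c (X * exp (t * I)))) = 0 := by
    have h3 : (fun t : ℝ => Complex.imCLM ((t : ℂ) * c (X * exp (t * I)))) = fun _ => 0 := by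
      funext t
      show ((t : ℂ) * c (X * exp (t * I))).im = 0
      rw [Complex.im_ofReal_mul, him _ (by rw [norm_rot, h]), mul_zero]
    rw [h3]
    simp
  rw [h2] at h1
  have h3 : (∫ t in (0 : ℝ)..(2 * π), (t : ℂ) * c (X * exp (t * I))).im = 0 := h1.symm
  have h4 : (1 / (2 * π : ℂ)) = ((1 / (2 * π) : ℝ) : ℂ) := by push_cast; ring
  rw [gam0, h4, Complex.im_ofReal_mul, h3, mul_zero]

theorem gam0_prop (c : ℂ → ℂ) (U : Set ℂ) (hU : IsOpen U) (hsub : sphere (0 : ℂ) 1 ⊆ U)
    (hc : DifferentiableOn ℂ c U)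
    (hm : ∫ t in (0 : ℝ)..(2 * π), c (exp (t * I)) = 0) :
    (∀ X : ℂ, ‖X‖ = 1 → AnalyticAt ℂ (gam0 c) X) ∧
    ∀ X : ℂ, ‖X‖ = 1 → I * X * deriv (gam0 c) X = c X := by
  obtain ⟨η, hη, hA⟩ := exists_annulus U hU hsub
  have hdc : DifferentiableOn ℂ (deriv c) U := hc.deriv hU
  -- a bound for the derivative
  have hK : IsCompact {X : ℂ | |‖X‖ - 1| ≤ η} := by
    refine (isCompact_closedBall (0 : ℂ) (1 + η)).of_isClosed_subset
      (isClosed_le (by fun_prop) continuous_const) fun X hX => ?_
    rw [mem_closedBall_zero_iff]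
    have := (abs_le.1 (show |‖X‖ - 1| ≤ η from hX)).2
    linarith
  obtain ⟨M, hM⟩ := hK.exists_bound_of_continuousOn
    (hdc.continuousOn.mono fun X hX => hA X hX)
  have hs : IsOpen {X : ℂ | |‖X‖ - 1| < η} := isOpen_lt (by fun_prop) continuous_const
  have hin : ∀ X : ℂ, |‖X‖ - 1| < η → ∀ t : ℝ, X * exp (t * I) ∈ U := by
    intro X hX t
    refine hA _ ?_
    rw [norm_rot]
    exact hX.le
  have hcont : ∀ X : ℂ, |‖X‖ - 1| < η → Continuous fun t : ℝ => (t : ℂ) * c (X * exp (t * I)) := by
    intro X hX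
    exact Complex.continuous_ofReal.mul
      (hc.continuousOn.comp_continuous (by fun_prop) fun t => hin X hX t)
  have hcont0 : ∀ X : ℂ, |‖X‖ - 1| < η → Continuous fun t : ℝ => c (X * exp (t * I)) := by
    intro X hX
    exact hc.continuousOn.comp_continuous (by fun_prop) fun t => hin X hX t
  have hcont' : ∀ X : ℂ, |‖X‖ - 1| < η →
      Continuous fun t : ℝ => (t : ℂ) * (deriv c (X * exp (t * I)) * exp (t * I)) := by
    intro X hX
    refine Complex.continuous_ofReal.mul (Continuous.mul ?_ (by fun_prop))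
    exact hdc.continuousOn.comp_continuous (by fun_prop) fun t => hin X hX t
  have key : ∀ X : ℂ, |‖X‖ - 1| < η → HasDerivAt (gam0 c)
      ((1 / (2 * π : ℂ)) * ∫ t in (0 : ℝ)..(2 * π),
        (t : ℂ) * (deriv c (X * exp (t * I)) * exp (t * I))) X := by
    intro X hX
    have h1 := (intervalIntegral.hasDerivAt_integral_of_dominated_loc_of_deriv_le
      (μ := volume) (a := 0) (b := 2 * π)
      (F := fun (x : ℂ) (t : ℝ) => (t : ℂ) * c (x * exp (t * I)))
      (F' := fun (x : ℂ) (t : ℝ) => (t : ℂ) * (deriv c (x * exp (t * I)) * exp (t * I)))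
      (x₀ := X) (bound := fun _ => 2 * π * M) (s := {X : ℂ | |‖X‖ - 1| < η}) (hs.mem_nhds hX)
      (Filter.eventually_of_mem (hs.mem_nhds hX) fun x hx =>
        (hcont x hx).aestronglyMeasurable)
      ((hcont X hX).intervalIntegrable _ _) (hcont' X hX).aestronglyMeasurable
      (Filter.Eventually.of_forall fun t ht x hx => by
        rw [Set.uIoc_of_le (by positivity)] at ht
        rw [norm_mul, norm_mul, Complex.norm_exp_ofReal_mul_I, mul_one, Complex.norm_real,
          Real.norm_eq_abs, abs_of_pos ht.1]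
        have h2 : ‖deriv c (x * exp (t * I))‖ ≤ M := by
          refine hM _ ?_
          show |‖x * exp (t * I)‖ - 1| ≤ η
          rw [norm_rot]
          exact (show |‖x‖ - 1| < η from hx).le
        exact mul_le_mul ht.2 h2 (norm_nonneg _) (by positivity))
      intervalIntegrable_const
      (Filter.Eventually.of_forall fun t _ x hx => by
        have h2 : HasDerivAt c (deriv c (x * exp (t * I))) (x * exp (t * I)) :=
          (hc.differentiableAt (hU.mem_nhds (hin x hx t))).hasDerivAt
        have h3 : HasDerivAt (fun x : ℂ => x * exp (t * I)) (exp (t * I)) x := by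
          simpa using (hasDerivAt_id x).mul_const (exp (t * I))
        exact (h2.comp x h3).const_mul (t : ℂ))).2
    exact h1.const_mul _
  have h1η : ∀ X : ℂ, ‖X‖ = 1 → |‖X‖ - 1| < η := by
    intro X h
    rw [h, sub_self, abs_zero]
    exact hη
  refine ⟨fun X h => ?_, fun X h => ?_⟩
  · refine Complex.analyticAt_iff_eventually_differentiableAt.2 ?_
    filter_upwards [hs.mem_nhds (h1η X h)] with Y hY
    exact (key Y hY).differentiableAt
  · rw [(key X (h1η X h)).deriv]
    have h2 : ∀ t : ℝ, HasDerivAt (fun t : ℝ => (t : ℂ) * c (X * exp (t * I)))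
        (c (X * exp (t * I)) + I * X * ((t : ℂ) * (deriv c (X * exp (t * I)) * exp (t * I)))) t := by
      intro t
      have e1 : HasDerivAt c (deriv c (X * exp (t * I))) (X * exp (t * I)) :=
        (hc.differentiableAt (hU.mem_nhds (hin X (h1η X h) t))).hasDerivAt
      have e2 : HasDerivAt (fun t : ℝ => (t : ℂ) * I) I t := by
        simpa using (Complex.ofRealCLM.hasDerivAt (x := t)).mul_const I
      have e3 : HasDerivAt (fun t : ℝ => X * exp (t * I)) (X * (exp (t * I) * I)) t :=
        (e2.cexp).const_mul X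
      have e4 := e1.comp_of_eq t e3 rfl
      have e5 : HasDerivAt (fun t : ℝ => (t : ℂ)) 1 t := Complex.ofRealCLM.hasDerivAt (x := t)
      refine (e5.mul e4).congr_deriv ?_
      simp only [Function.comp_apply]
      ring
    have hi1 : IntervalIntegrable (fun t : ℝ => c (X * exp (t * I))) volume 0 (2 * π) :=
      (hcont0 X (h1η X h)).intervalIntegrable _ _
    have hi2 : IntervalIntegrable (fun t : ℝ => I * X * ((t : ℂ) *
        (deriv c (X * exp (t * I)) * exp (t * I)))) volume 0 (2 * π) :=
      ((hcont' X (h1η X h)).const_mul (I * X)).intervalIntegrable _ _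
    have h3 := intervalIntegral.integral_eq_sub_of_hasDerivAt (a := 0) (b := 2 * π)
      (fun t _ => h2 t) (hi1.add hi2)
    rw [intervalIntegral.integral_add hi1 hi2, intervalIntegral.integral_const_mul] at h3
    have h5 : X * exp (((2 * π : ℝ) : ℂ) * I) = X := by
      have : exp (((2 * π : ℝ) : ℂ) * I) = 1 := by
        push_cast
        exact Complex.exp_two_pi_mul_I
      rw [this, mul_one]
    -- the mean
    have h6 : ∫ t in (0 : ℝ)..(2 * π), c (X * exp (t * I)) = 0 := by
      have hX : X = exp (arg X * I) := by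
        have h1 := Complex.norm_mul_exp_arg_mul_I X
        rw [h, Complex.ofReal_one, one_mul] at h1
        exact h1.symm
      have hper : Function.Periodic (fun t : ℝ => c (exp (t * I))) (2 * π) := by
        intro t
        show c (exp (((t + 2 * π : ℝ) : ℂ) * I)) = c (exp (t * I))
        congr 1
        push_cast
        rw [add_mul, Complex.exp_add, Complex.exp_two_pi_mul_I, mul_one]
      have h7 : ∀ t : ℝ, c (X * exp (t * I)) = (fun t : ℝ => c (exp (t * I))) (t + arg X) := by
        intro t
        show _ = c (exp (((t + arg X : ℝ) : ℂ) * I))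
        congr 1
        conv_lhs => rw [hX]
        rw [← Complex.exp_add]
        congr 1
        push_cast
        ring
      calc ∫ t in (0 : ℝ)..(2 * π), c (X * exp (t * I))
          = ∫ t in (0 : ℝ)..(2 * π), (fun t : ℝ => c (exp (t * I))) (t + arg X) := by
            refine intervalIntegral.integral_congr fun t _ => h7 t
        _ = ∫ t in (0 + arg X)..(2 * π + arg X), (fun t : ℝ => c (exp (t * I))) t :=
            intervalIntegral.integral_comp_add_right (fun t : ℝ => c (exp (t * I))) (arg X)
        _ = ∫ t in (arg X)..(arg X + 2 * π), (fun t : ℝ => c (exp (t * I))) t := by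
            rw [zero_add, add_comm]
        _ = ∫ t in (0 : ℝ)..(0 + 2 * π), (fun t : ℝ => c (exp (t * I))) t :=
            hper.intervalIntegral_add_eq _ _
        _ = 0 := by rw [zero_add]; exact hm
    rw [h6, h5] at h3
    have hpi : (π : ℂ) ≠ 0 := by exact_mod_cast Real.pi_ne_zero
    have h8 : ((2 * π : ℝ) : ℂ) * c X - ((0 : ℝ) : ℂ) * c (X * exp (((0 : ℝ) : ℂ) * I)) =
        2 * π * c X := by
      push_cast
      ring
    rw [h8, zero_add] at h3
    rw [show I * X * (1 / (2 * (π : ℂ)) * ∫ t in (0 : ℝ)..(2 * π),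
        (t : ℂ) * (deriv c (X * exp (t * I)) * exp (t * I))) =
      (1 / (2 * (π : ℂ))) * (I * X * ∫ t in (0 : ℝ)..(2 * π),
        (t : ℂ) * (deriv c (X * exp (t * I)) * exp (t * I))) by ring, h3]
    field_simp

end

end Pool.Agent.Y98.LM
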