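import Pool.Agent.Y98.LM.Gam0

/-! Project LM: critical functions for curves whose curvature changes sign four times (`S_PQ4`). -/

set_option autoImplicit false

open MeasureTheory Set Filter Topology Metric Complex
open scoped ComplexConjugate Real

namespace Pool.Agent.Y98.LM

open Pool.Agent.Y31.LM Pool.Agent.Y195.LM

noncomputable section

/-- a holomorphic function which is real on the circle, given through its values at `exp (i t)` -/
theorem ex_t {X : ℂ} (h : ‖X‖ = 1) : ∃ t : ℝ, X = exp (t * I) := by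
  refine ⟨arg X, ?_⟩
  have h1 := Complex.norm_mul_exp_arg_mul_I X
  rw [h, Complex.ofReal_one, one_mul] at h1
  exact h1.symm

theorem norm_e (t : ℝ) : ‖exp (t * I)‖ = 1 := Complex.norm_exp_ofReal_mul_I t

/-- from a factorisation of the curvature to the critical functions -/
theorem of_fact (f a c : ℂ → ℂ) (ha : ∀ X : ℂ, ‖X‖ = 1 → AnalyticAt ℂ a X)
    (hc : ∀ X : ℂ, ‖X‖ = 1 → AnalyticAt ℂ c X) (hai : ∀ X : ℂ, ‖X‖ = 1 → (a X).im = 0)
    (hci : ∀ X : ℂ, ‖X‖ = 1 → (c X).im = 0)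
    (ham : ∫ t in (0 : ℝ)..(2 * π), a (exp (t * I)) = 0)
    (hcm : ∫ t in (0 : ℝ)..(2 * π), c (exp (t * I)) = 0)
    (hac : ∀ X : ℂ, ‖X‖ = 1 → a X * c X = (Kc f X : ℂ)) :
    ∃ P Q : ℂ → ℂ, (∀ X : ℂ, ‖X‖ = 1 → AnalyticAt ℂ P X) ∧ (∀ X : ℂ, ‖X‖ = 1 → AnalyticAt ℂ Q X) ∧
    (∀ X : ℂ, ‖X‖ = 1 → (P X).im = 0) ∧ (∀ X : ℂ, ‖X‖ = 1 → (Q X).im = 0) ∧
    ∀ X : ℂ, ‖X‖ = 1 → ‖deriv P X‖ ^ 2 - ‖deriv Q X‖ ^ 2 =
      ‖deriv f X‖ * (1 + X * deriv (deriv f) X / deriv f X).re := by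
  have aux : ∀ g : ℂ → ℂ, (∀ X : ℂ, ‖X‖ = 1 → AnalyticAt ℂ g X) →
      (∀ X : ℂ, ‖X‖ = 1 → (g X).im = 0) → (∫ t in (0 : ℝ)..(2 * π), g (exp (t * I)) = 0) →
      (∀ X : ℂ, ‖X‖ = 1 → AnalyticAt ℂ (gam0 g) X) ∧
      (∀ X : ℂ, ‖X‖ = 1 → I * X * deriv (gam0 g) X = ((g X).re : ℂ)) ∧
      (∀ X : ℂ, ‖X‖ = 1 → (gam0 g X).im = 0) := by
    intro g hg hi hm
    have hU : IsOpen {X | AnalyticAt ℂ g X} := isOpen_analyticAt ℂ g
    have hsub : sphere (0 : ℂ) 1 ⊆ {X | AnalyticAt ℂ g X} := fun X hX =>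
      hg X (mem_sphere_zero_iff_norm.1 hX)
    have hd : DifferentiableOn ℂ g {X | AnalyticAt ℂ g X} := fun X hX =>
      (AnalyticAt.differentiableAt hX).differentiableWithinAt
    obtain ⟨h1, h2⟩ := gam0_prop g _ hU hsub hd hm
    refine ⟨h1, fun X h => ?_, fun X h => gam0_im g (hd.continuousOn.mono hsub) hi h⟩
    rw [h2 X h]
    apply Complex.ext
    · rw [Complex.ofReal_re]
    · rw [Complex.ofReal_im, hi X h]
  obtain ⟨a1, a2, a3⟩ := aux a ha hai ham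
  obtain ⟨c1, c2, c3⟩ := aux c hc hci hcm
  refine ⟨fun X => (gam0 a X + gam0 c X) / 2, fun X => (gam0 c X - gam0 a X) / 2,
    fun X h => ((a1 X h).add (c1 X h)).div analyticAt_const two_ne_zero,
    fun X h => ((c1 X h).sub (a1 X h)).div analyticAt_const two_ne_zero,
    fun X h => ?_, fun X h => ?_, fun X h => ?_⟩
  · have h1 : ((gam0 a X + gam0 c X) / 2).im = ((gam0 a X).im + (gam0 c X).im) / 2 := by
      rw [show (2 : ℂ) = ((2 : ℝ) : ℂ) by norm_num, Complex.div_ofReal_im, Complex.add_im]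
    rw [h1, a3 X h, c3 X h]
    norm_num
  · have h1 : ((gam0 c X - gam0 a X) / 2).im = ((gam0 c X).im - (gam0 a X).im) / 2 := by
      rw [show (2 : ℂ) = ((2 : ℝ) : ℂ) by norm_num, Complex.div_ofReal_im, Complex.sub_im]
    rw [h1, a3 X h, c3 X h]
    norm_num
  · have dg : HasDerivAt (gam0 c) (deriv (gam0 c) X) X := (c1 X h).differentiableAt.hasDerivAt
    have da : HasDerivAt (gam0 a) (deriv (gam0 a) X) X := (a1 X h).differentiableAt.hasDerivAt
    have dP : deriv (fun X => (gam0 a X + gam0 c X) / 2) X =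
        (deriv (gam0 a) X + deriv (gam0 c) X) / 2 := ((da.add dg).div_const 2).deriv
    have dQ : deriv (fun X => (gam0 c X - gam0 a X) / 2) X =
        (deriv (gam0 c) X - deriv (gam0 a) X) / 2 := ((dg.sub da).div_const 2).deriv
    have nrm : ∀ z : ℂ, ‖z‖ = ‖I * X * z‖ := by
      intro z
      rw [norm_mul, norm_mul, Complex.norm_I, h, one_mul, one_mul]
    have hcr : ∀ g : ℂ → ℂ, (∀ X : ℂ, ‖X‖ = 1 → (g X).im = 0) → g X = ((g X).re : ℂ) := by
      intro g hi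
      apply Complex.ext
      · rw [Complex.ofReal_re]
      · rw [Complex.ofReal_im, hi X h]
    have kc := hac X h
    rw [hcr a hai, hcr c hci, ← Complex.ofReal_mul, Complex.ofReal_inj] at kc
    have eP : I * X * ((deriv (gam0 a) X + deriv (gam0 c) X) / 2) =
        ((((a X).re + (c X).re) / 2 : ℝ) : ℂ) := by
      push_cast
      linear_combination (1 / 2) * a2 X h + (1 / 2) * c2 X h
    have eQ : I * X * ((deriv (gam0 c) X - deriv (gam0 a) X) / 2) =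
        ((((c X).re - (a X).re) / 2 : ℝ) : ℂ) := by
      push_cast
      linear_combination (-1 / 2) * a2 X h + (1 / 2) * c2 X h
    rw [dP, dQ, nrm, eP, nrm ((deriv (gam0 c) X - deriv (gam0 a) X) / 2), eQ,
      Complex.norm_real, Complex.norm_real, Real.norm_eq_abs, Real.norm_eq_abs, sq_abs, sq_abs]
    show _ = Kc f X
    rw [← kc]
    ring

/-- the bump function on the plane -/
def Bh (N : ℕ) (x : ℝ) (X : ℂ) : ℂ :=
  ((1 + (X / exp (x * I) + exp (x * I) / X) / 2) / 2) ^ N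

theorem Bh_on (N : ℕ) (x θ : ℝ) :
    Bh N x (exp (θ * I)) = ((((1 + Real.cos (θ - x)) / 2) ^ N : ℝ) : ℂ) := by
  have e0 : exp ((x : ℂ) * I) ≠ 0 := Complex.exp_ne_zero _
  have e1 : exp ((θ : ℂ) * I) ≠ 0 := Complex.exp_ne_zero _
  rw [Bh]
  push_cast
  congr 3
  rw [Complex.cos, ← Complex.exp_sub, ← Complex.exp_sub]
  congr 3
  · congr 1
    ring
  · congr 1
    ring

theorem Bh_an (N : ℕ) (x : ℝ) {X : ℂ} (h : X ≠ 0) : AnalyticAt ℂ (Bh N x) X := by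
  have e0 : exp ((x : ℂ) * I) ≠ 0 := Complex.exp_ne_zero _
  refine AnalyticAt.pow ?_ N
  refine AnalyticAt.div (analyticAt_const.add (AnalyticAt.div (AnalyticAt.add ?_ ?_)
    analyticAt_const two_ne_zero)) analyticAt_const two_ne_zero
  · exact analyticAt_id.div analyticAt_const e0
  · exact analyticAt_const.div analyticAt_id h

/-- the trigonometric polynomial with zeros `θ₁`, `θ₃` -/
def sh2 (θ₁ θ₃ : ℝ) (X : ℂ) : ℂ :=
  -((X - exp (θ₁ * I)) * (X - exp (θ₃ * I))) / (4 * exp ((((θ₁ + θ₃) / 2 : ℝ) : ℂ) * I) * X)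

theorem sin_e (s : ℝ) : (Real.sin s : ℂ) = (exp (s * I) - exp (-(s * I))) / (2 * I) := by
  rw [Complex.ofReal_sin, Complex.sin, neg_mul]
  have hI : (I : ℂ) ≠ 0 := Complex.I_ne_zero
  field_simp
  rw [Complex.I_sq]
  ring

theorem sh2_on (θ₁ θ₃ θ : ℝ) :
    sh2 θ₁ θ₃ (exp (θ * I)) =
      ((Real.sin ((θ - θ₁) / 2) * Real.sin ((θ - θ₃) / 2) : ℝ) : ℂ) := by
  rw [sh2, Complex.ofReal_mul, sin_e, sin_e]
  set u := exp (((θ / 2 : ℝ) : ℂ) * I) with hu
  set v := exp (((θ₁ / 2 : ℝ) : ℂ) * I) with hv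
  set w := exp (((θ₃ / 2 : ℝ) : ℂ) * I) with hw
  have hu0 : u ≠ 0 := Complex.exp_ne_zero _
  have hv0 : v ≠ 0 := Complex.exp_ne_zero _
  have hw0 : w ≠ 0 := Complex.exp_ne_zero _
  have h1 : exp ((θ : ℂ) * I) = u ^ 2 := by
    rw [hu, ← Complex.exp_nat_mul]
    congr 1
    push_cast
    ring
  have h2 : exp ((θ₁ : ℂ) * I) = v ^ 2 := by
    rw [hv, ← Complex.exp_nat_mul]
    congr 1
    push_cast
    ring
  have h3 : exp ((θ₃ : ℂ) * I) = w ^ 2 := by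
    rw [hw, ← Complex.exp_nat_mul]
    congr 1
    push_cast
    ring
  have h4 : exp ((((θ₁ + θ₃) / 2 : ℝ) : ℂ) * I) = v * w := by
    rw [hv, hw, ← Complex.exp_add]
    congr 1
    push_cast
    ring
  have h5 : exp ((((θ - θ₁) / 2 : ℝ) : ℂ) * I) = u / v := by
    rw [hv, hu, ← Complex.exp_sub]
    congr 1
    push_cast
    ring
  have h6 : exp (-((((θ - θ₁) / 2 : ℝ) : ℂ) * I)) = v / u := by
    rw [hv, hu, ← Complex.exp_sub]
    congr 1
    push_cast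
    ring
  have h7 : exp ((((θ - θ₃) / 2 : ℝ) : ℂ) * I) = u / w := by
    rw [hw, hu, ← Complex.exp_sub]
    congr 1
    push_cast
    ring
  have h8 : exp (-((((θ - θ₃) / 2 : ℝ) : ℂ) * I)) = w / u := by
    rw [hw, hu, ← Complex.exp_sub]
    congr 1
    push_cast
    ring
  rw [h1, h2, h3, h4, h5, h6, h7, h8]
  have hI : (I : ℂ) ≠ 0 := Complex.I_ne_zero
  field_simp
  rw [Complex.I_sq]
  ring

theorem sh2_an (θ₁ θ₃ : ℝ) {X : ℂ} (h : X ≠ 0) : AnalyticAt ℂ (sh2 θ₁ θ₃) X := by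
  have e0 : exp ((((θ₁ + θ₃) / 2 : ℝ) : ℂ) * I) ≠ 0 := Complex.exp_ne_zero _
  refine AnalyticAt.div (AnalyticAt.neg ((analyticAt_id.sub analyticAt_const).mul
    (analyticAt_id.sub analyticAt_const))) (analyticAt_const.mul analyticAt_id) ?_
  exact mul_ne_zero (mul_ne_zero (by norm_num) e0) h

theorem dense_sin2 (x y : ℝ) :
    Dense {t : ℝ | Real.sin ((t - x) / 2) * Real.sin ((t - y) / 2) ≠ 0} := by
  have hc : ((Set.range fun n : ℤ => x + (n : ℝ) * (2 * π)) ∪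
      (Set.range fun n : ℤ => y + (n : ℝ) * (2 * π))).Countable :=
    (Set.countable_range _).union (Set.countable_range _)
  refine (hc.dense_compl ℝ).mono ?_
  intro t ht h0
  apply ht
  rcases mul_eq_zero.1 h0 with h | h
  · obtain ⟨n, hn⟩ := Real.sin_eq_zero_iff.1 h
    left
    refine ⟨n, ?_⟩
    show x + (n : ℝ) * (2 * π) = t
    linarith
  · obtain ⟨n, hn⟩ := Real.sin_eq_zero_iff.1 h
    right
    refine ⟨n, ?_⟩
    show y + (n : ℝ) * (2 * π) = t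
    linarith

theorem t (hWT : S_WT) : S_PQ4 := by
  rintro f hf hf0 ⟨t₁, t₂, t₃, t₄, h12, h23, h34, h41, k1, k2, k3, k4⟩
  have hpi := Real.pi_pos
  set U : Set ℂ := {X | AnalyticAt ℂ (Kh f) X} with hUdef
  have hU : IsOpen U := isOpen_analyticAt ℂ (Kh f)
  have hsub : sphere (0 : ℂ) 1 ⊆ U := fun X hX =>
    Kh_analytic hf hf0 (mem_sphere_zero_iff_norm.1 hX)
  have hKd : DifferentiableOn ℂ (Kh f) U := fun X hX =>
    (AnalyticAt.differentiableAt hX).differentiableWithinAt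
  -- the curvature as a function of the angle
  set K : ℝ → ℝ := fun θ => Kc f (exp (θ * I)) with hKdef
  have hKcv : ∀ θ, K θ = ‖deriv f (exp (θ * I))‖ * cv f θ := fun θ => rfl
  have hdpos : ∀ θ : ℝ, 0 < ‖deriv f (exp (θ * I))‖ := fun θ =>
    norm_pos_iff.2 (hf0 _ (norm_e θ))
  have hKre : ∀ θ, K θ = (Kh f (exp (θ * I))).re := by
    intro θ
    rw [Kh_on hf hf0 (norm_e θ), Complex.ofReal_re]
  have hKc : Continuous K := by
    have h1 : K = fun θ : ℝ => (Kh f (exp (θ * I))).re := funext hKre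
    rw [h1]
    refine Complex.continuous_re.comp (hKd.continuousOn.comp_continuous (by fun_prop) fun t => ?_)
    exact hsub (mem_sphere_zero_iff_norm.2 (norm_e t))
  have hK1 : 0 < K t₁ := by rw [hKcv]; exact mul_pos (hdpos _) k1
  have hK2 : K t₂ < 0 := by rw [hKcv]; exact mul_neg_of_pos_of_neg (hdpos _) k2
  have hK3 : 0 < K t₃ := by rw [hKcv]; exact mul_pos (hdpos _) k3
  have hK4 : K t₄ < 0 := by rw [hKcv]; exact mul_neg_of_pos_of_neg (hdpos _) k4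
  obtain ⟨θ₁, hθ1, hz1⟩ := intermediate_value_Icc' h12.le hKc.continuousOn
    (show (0 : ℝ) ∈ Icc (K t₂) (K t₁) from ⟨hK2.le, hK1.le⟩)
  obtain ⟨θ₃, hθ3, hz3⟩ := intermediate_value_Icc' h34.le hKc.continuousOn
    (show (0 : ℝ) ∈ Icc (K t₄) (K t₃) from ⟨hK4.le, hK3.le⟩)
  have a1 : t₁ < θ₁ := lt_of_le_of_ne hθ1.1 (fun h => by rw [← h] at hz1; exact hK1.ne' hz1)
  have a2 : θ₁ < t₂ := lt_of_le_of_ne hθ1.2 (fun h => by rw [h] at hz1; exact hK2.ne hz1)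
  have a3 : t₃ < θ₃ := lt_of_le_of_ne hθ3.1 (fun h => by rw [← h] at hz3; exact hK3.ne' hz3)
  have a4 : θ₃ < t₄ := lt_of_le_of_ne hθ3.2 (fun h => by rw [h] at hz3; exact hK4.ne hz3)
  set X1 : ℂ := exp (θ₁ * I) with hX1
  set X3 : ℂ := exp (θ₃ * I) with hX3
  have hU1 : U ∈ 𝓝 X1 := hU.mem_nhds (hsub (mem_sphere_zero_iff_norm.2 (norm_e θ₁)))
  have hU3 : U ∈ 𝓝 X3 := hU.mem_nhds (hsub (mem_sphere_zero_iff_norm.2 (norm_e θ₃)))
  set D1 := dslope (Kh f) X1 with hD1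
  set D2 := dslope D1 X3 with hD2
  have hD1d : DifferentiableOn ℂ D1 U := (Complex.differentiableOn_dslope hU1).2 hKd
  have hD2d : DifferentiableOn ℂ D2 U := (Complex.differentiableOn_dslope hU3).2 hD1d
  have z1 : Kh f X1 = 0 := by
    rw [Kh_on hf hf0 (norm_e θ₁)]
    exact_mod_cast hz1
  have z2 : Kh f X3 = 0 := by
    rw [Kh_on hf hf0 (norm_e θ₃)]
    exact_mod_cast hz3
  have hne : X3 - X1 ≠ 0 := by
    intro h
    have h1 : X3 = X1 := sub_eq_zero.1 h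
    rw [hX1, hX3, Complex.exp_eq_exp_iff_exists_int] at h1
    obtain ⟨n, hn⟩ := h1
    have h2 : θ₃ = θ₁ + n * (2 * π) := by
      have h3 : (θ₃ : ℂ) * I = (((θ₁ + n * (2 * π) : ℝ)) : ℂ) * I := by
        rw [hn]
        push_cast
        ring
      exact_mod_cast mul_right_cancel₀ Complex.I_ne_zero h3
    have h3 : (0 : ℝ) < n * (2 * π) := by linarith
    have h4 : (n : ℝ) * (2 * π) < 1 * (2 * π) := by linarith
    have h5 : (0 : ℝ) < n := by
      by_contra h6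
      have : (n : ℝ) * (2 * π) ≤ 0 := mul_nonpos_of_nonpos_of_nonneg (not_lt.1 h6) (by positivity)
      linarith
    have h6 : (n : ℝ) < 1 := lt_of_mul_lt_mul_right h4 (by positivity)
    have h7 : (0 : ℤ) < n := by exact_mod_cast h5
    have h8 : n < (1 : ℤ) := by exact_mod_cast h6
    omega
  have id1 : ∀ X, (X - X1) * D1 X = Kh f X := by
    intro X
    have h := sub_smul_dslope (Kh f) X1 X
    rw [smul_eq_mul, z1, sub_zero] at h
    exact h
  have z3 : D1 X3 = 0 := by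
    have h := id1 X3
    rw [z2] at h
    exact (mul_eq_zero.1 h).resolve_left hne
  have id2 : ∀ X, (X - X1) * (X - X3) * D2 X = Kh f X := by
    intro X
    have h := sub_smul_dslope D1 X3 X
    rw [smul_eq_mul, z3, sub_zero] at h
    rw [← id1 X, ← h]
    ring
  set e : ℂ := exp ((((θ₁ + θ₃) / 2 : ℝ) : ℂ) * I) with he
  have he0 : e ≠ 0 := Complex.exp_ne_zero _
  set c0 : ℂ → ℂ := fun X => -(4 * e * X) * D2 X with hc0
  have hc0d : DifferentiableOn ℂ c0 U := by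
    refine DifferentiableOn.mul ?_ hD2d
    exact ((differentiableOn_const _).mul differentiableOn_id).neg
  have hsc : ∀ X : ℂ, X ≠ 0 → sh2 θ₁ θ₃ X * c0 X = Kh f X := by
    intro X hX
    rw [← id2 X, sh2, hc0]
    show -((X - X1) * (X - X3)) / (4 * e * X) * (-(4 * e * X) * D2 X) = _
    field_simp
  set a0 : ℝ → ℝ := fun θ => Real.sin ((θ - θ₁) / 2) * Real.sin ((θ - θ₃) / 2) with ha0
  have hsa : ∀ θ : ℝ, sh2 θ₁ θ₃ (exp (θ * I)) = (a0 θ : ℂ) := fun θ => sh2_on θ₁ θ₃ θ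
  have hC : ∀ θ : ℝ, (a0 θ : ℂ) * c0 (exp (θ * I)) = (K θ : ℂ) := by
    intro θ
    rw [← hsa, hsc _ (Complex.exp_ne_zero _), Kh_on hf hf0 (norm_e θ)]
  have hCc : Continuous fun θ : ℝ => c0 (exp (θ * I)) := by
    refine hc0d.continuousOn.comp_continuous (by fun_prop) fun t => ?_
    exact hsub (mem_sphere_zero_iff_norm.2 (norm_e t))
  have him : ∀ θ : ℝ, (c0 (exp (θ * I))).im = 0 := by
    have h1 : (fun t : ℝ => (c0 (exp (t * I))).im) = fun _ => 0 := by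
      refine Continuous.ext_on (dense_sin2 θ₁ θ₃) (Complex.continuous_im.comp hCc)
        continuous_const ?_
      intro t ht
      have h2 := congrArg Complex.im (hC t)
      rw [Complex.im_ofReal_mul, Complex.ofReal_im] at h2
      exact (mul_eq_zero.1 h2).resolve_left ht
    exact fun t => congrFun h1 t
  set C : ℝ → ℝ := fun θ => (c0 (exp (θ * I))).re with hCdef
  have hCC : ∀ θ : ℝ, c0 (exp (θ * I)) = (C θ : ℂ) := by
    intro θ
    apply Complex.ext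
    · rw [Complex.ofReal_re]
    · rw [Complex.ofReal_im, him θ]
  have hCK : ∀ θ, a0 θ * C θ = K θ := by
    intro θ
    have h1 := hC θ
    rw [hCC] at h1
    exact_mod_cast h1
  have hexp : ∀ θ : ℝ, exp (((θ + 2 * π : ℝ) : ℂ) * I) = exp (θ * I) := by
    intro θ
    push_cast
    rw [add_mul, Complex.exp_add, Complex.exp_two_pi_mul_I, mul_one]
  -- signs
  have sp : ∀ x : ℝ, 0 < x → x < 2 * π → 0 < Real.sin (x / 2) := fun x h0 h1 =>
    Real.sin_pos_of_pos_of_lt_pi (by linarith) (by linarith)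
  have sn : ∀ x : ℝ, x < 0 → -(2 * π) < x → Real.sin (x / 2) < 0 := fun x h0 h1 =>
    Real.sin_neg_of_neg_of_neg_pi_lt (by linarith) (by linarith)
  have b1 : 0 < a0 t₁ := mul_pos_of_neg_of_neg (sn _ (by linarith) (by linarith))
    (sn _ (by linarith) (by linarith))
  have b2 : a0 t₂ < 0 := mul_neg_of_pos_of_neg (sp _ (by linarith) (by linarith))
    (sn _ (by linarith) (by linarith))
  have b3 : a0 t₃ < 0 := mul_neg_of_pos_of_neg (sp _ (by linarith) (by linarith))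
    (sn _ (by linarith) (by linarith))
  have b4 : 0 < a0 t₄ := mul_pos (sp _ (by linarith) (by linarith))
    (sp _ (by linarith) (by linarith))
  have d1 : 0 < C t₁ := by
    have h1 := hCK t₁
    by_contra h2
    have := mul_nonpos_of_nonneg_of_nonpos b1.le (not_lt.1 h2)
    linarith
  have d3 : C t₃ < 0 := by
    have h1 := hCK t₃
    by_contra h2
    have := mul_nonpos_of_nonpos_of_nonneg b3.le (not_lt.1 h2)
    linarith
  obtain ⟨N, s₁, s₂, s₃, s₄, p1, p2, p3, p4, hw⟩ := hWT a0 C (by fun_prop)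
    (Complex.continuous_re.comp hCc)
    (fun θ => by
      have h1 : (a0 (θ + 2 * π) : ℂ) = (a0 θ : ℂ) := by rw [← hsa, ← hsa, hexp]
      exact_mod_cast h1)
    (fun θ => by
      show (c0 (exp (((θ + 2 * π : ℝ) : ℂ) * I))).re = _
      rw [hexp]) t₁ t₂ t₃ t₄ h12 h23 h34 h41 b4 b2 d1 d3
  set w : ℝ → ℝ := fun θ =>
    (1 + s₄ * ((1 + Real.cos (θ - t₄)) / 2) ^ N + s₂ * ((1 + Real.cos (θ - t₂)) / 2) ^ N) /
    (1 + s₁ * ((1 + Real.cos (θ - t₁)) / 2) ^ N + s₃ * ((1 + Real.cos (θ - t₃)) / 2) ^ N) with hwdef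
  have hw1 : ∫ θ in (0)..(2 * π), a0 θ * w θ = 0 := hw.1
  have hw2 : ∫ θ in (0)..(2 * π), C θ / w θ = 0 := hw.2
  have bp : ∀ x θ : ℝ, 0 ≤ ((1 + Real.cos (θ - x)) / 2) ^ N := fun x θ =>
    pow_nonneg (by have := Real.neg_one_le_cos (θ - x); linarith) N
  have np : ∀ θ, 0 < 1 + s₄ * ((1 + Real.cos (θ - t₄)) / 2) ^ N +
      s₂ * ((1 + Real.cos (θ - t₂)) / 2) ^ N := fun θ => by
    have h1 := mul_nonneg p4 (bp t₄ θ)
    have h2 := mul_nonneg p2 (bp t₂ θ)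
    linarith
  have dp : ∀ θ, 0 < 1 + s₁ * ((1 + Real.cos (θ - t₁)) / 2) ^ N +
      s₃ * ((1 + Real.cos (θ - t₃)) / 2) ^ N := fun θ => by
    have h1 := mul_nonneg p1 (bp t₁ θ)
    have h2 := mul_nonneg p3 (bp t₃ θ)
    linarith
  have wp : ∀ θ, 0 < w θ := fun θ => div_pos (np θ) (dp θ)
  set nu : ℂ → ℂ := fun X => 1 + s₄ * Bh N t₄ X + s₂ * Bh N t₂ X with hnu
  set de : ℂ → ℂ := fun X => 1 + s₁ * Bh N t₁ X + s₃ * Bh N t₃ X with hde
  have hden : ∀ θ : ℝ, de (exp (θ * I)) = ((1 + s₁ * ((1 + Real.cos (θ - t₁)) / 2) ^ N +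
      s₃ * ((1 + Real.cos (θ - t₃)) / 2) ^ N : ℝ) : ℂ) := by
    intro θ
    show 1 + (s₁ : ℂ) * Bh N t₁ (exp (θ * I)) + s₃ * Bh N t₃ (exp (θ * I)) = _
    rw [Bh_on, Bh_on]
    push_cast
    ring
  have hnum : ∀ θ : ℝ, nu (exp (θ * I)) = ((1 + s₄ * ((1 + Real.cos (θ - t₄)) / 2) ^ N +
      s₂ * ((1 + Real.cos (θ - t₂)) / 2) ^ N : ℝ) : ℂ) := by
    intro θ
    show 1 + (s₄ : ℂ) * Bh N t₄ (exp (θ * I)) + s₂ * Bh N t₂ (exp (θ * I)) = _
    rw [Bh_on, Bh_on]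
    push_cast
    ring
  have hW : ∀ θ : ℝ, nu (exp (θ * I)) / de (exp (θ * I)) = (w θ : ℂ) := by
    intro θ
    rw [hnum, hden, ← Complex.ofReal_div]
  have hnu0 : ∀ X : ℂ, ‖X‖ = 1 → nu X ≠ 0 := by
    intro X h
    obtain ⟨θ, rfl⟩ := ex_t h
    rw [hnum]
    exact_mod_cast (np θ).ne'
  have hde0 : ∀ X : ℂ, ‖X‖ = 1 → de X ≠ 0 := by
    intro X h
    obtain ⟨θ, rfl⟩ := ex_t h
    rw [hden]
    exact_mod_cast (dp θ).ne'
  have hnua : ∀ X : ℂ, ‖X‖ = 1 → AnalyticAt ℂ nu X := fun X h =>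
    (analyticAt_const.add (analyticAt_const.mul (Bh_an N t₄ (ne_zero h)))).add
      (analyticAt_const.mul (Bh_an N t₂ (ne_zero h)))
  have hdea : ∀ X : ℂ, ‖X‖ = 1 → AnalyticAt ℂ de X := fun X h =>
    (analyticAt_const.add (analyticAt_const.mul (Bh_an N t₁ (ne_zero h)))).add
      (analyticAt_const.mul (Bh_an N t₃ (ne_zero h)))
  have hc0a : ∀ X : ℂ, ‖X‖ = 1 → AnalyticAt ℂ c0 X := fun X h =>
    hc0d.analyticAt (hU.mem_nhds (hsub (mem_sphere_zero_iff_norm.2 h)))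
  have eA : ∀ θ : ℝ, sh2 θ₁ θ₃ (exp (θ * I)) * (nu (exp (θ * I)) / de (exp (θ * I))) =
      ((a0 θ * w θ : ℝ) : ℂ) := by
    intro θ
    rw [hsa, hW, ← Complex.ofReal_mul]
  have eC : ∀ θ : ℝ, c0 (exp (θ * I)) / (nu (exp (θ * I)) / de (exp (θ * I))) =
      ((C θ / w θ : ℝ) : ℂ) := by
    intro θ
    rw [hCC, hW]
    exact (Complex.ofReal_div (C θ) (w θ)).symm
  refine of_fact f (fun X => sh2 θ₁ θ₃ X * (nu X / de X)) (fun X => c0 X / (nu X / de X))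
    (fun X h => (sh2_an θ₁ θ₃ (ne_zero h)).mul ((hnua X h).div (hdea X h) (hde0 X h)))
    (fun X h => (hc0a X h).div ((hnua X h).div (hdea X h) (hde0 X h))
      (div_ne_zero (hnu0 X h) (hde0 X h))) ?_ ?_ ?_ ?_ ?_
  · intro X h
    obtain ⟨θ, rfl⟩ := ex_t h
    show (sh2 θ₁ θ₃ (exp (θ * I)) * (nu (exp (θ * I)) / de (exp (θ * I)))).im = 0
    rw [eA, Complex.ofReal_im]
  · intro X h
    obtain ⟨θ, rfl⟩ := ex_t h
    show (c0 (exp (θ * I)) / (nu (exp (θ * I)) / de (exp (θ * I)))).im = 0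
    rw [eC, Complex.ofReal_im]
  · have h1 : (fun θ : ℝ => sh2 θ₁ θ₃ (exp (θ * I)) * (nu (exp (θ * I)) / de (exp (θ * I)))) =
        fun θ : ℝ => ((a0 θ * w θ : ℝ) : ℂ) := funext eA
    show ∫ θ in (0 : ℝ)..(2 * π), (fun θ : ℝ => sh2 θ₁ θ₃ (exp (θ * I)) *
      (nu (exp (θ * I)) / de (exp (θ * I)))) θ = 0
    rw [h1, intervalIntegral.integral_ofReal, hw1, Complex.ofReal_zero]
  · have h1 : (fun θ : ℝ => c0 (exp (θ * I)) / (nu (exp (θ * I)) / de (exp (θ * I)))) =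
        fun θ : ℝ => ((C θ / w θ : ℝ) : ℂ) := funext eC
    show ∫ θ in (0 : ℝ)..(2 * π), (fun θ : ℝ => c0 (exp (θ * I)) /
      (nu (exp (θ * I)) / de (exp (θ * I)))) θ = 0
    rw [h1, intervalIntegral.integral_ofReal, hw2, Complex.ofReal_zero]
  · intro X h
    show sh2 θ₁ θ₃ X * (nu X / de X) * (c0 X / (nu X / de X)) = _
    have h1 : nu X / de X ≠ 0 := div_ne_zero (hnu0 X h) (hde0 X h)
    rw [← Kh_on hf hf0 h, ← hsc X (ne_zero h)]
    generalize nu X / de X = q at h1 ⊢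
    field_simp

end

end Pool.Agent.Y98.LM
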